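import Mathlib
import Pool.Agent.H106WS.G

set_option autoImplicit false

namespace Pool.Agent.Results.MP_1e8505_an.ObviousSubspaces

variable {X : Type*} [NormedAddCommGroup X] [InnerProductSpace ℂ X]

/-- The lattice `Lat A` of the closed invariant subspaces of an operator on a Hilbert space. -/
def Lat (A : X →L[ℂ] X) : Set (Submodule ℂ X) :=
  {M | IsClosed (M : Set X) ∧ ∀ f ∈ M, A f ∈ M}

/-- The closed span `M_k` of the vectors `e_n` with `n ≥ k`. -/
def obvious (e : ℤ → X) (k : ℤ) : Submodule ℂ X :=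
  (Submodule.span ℂ (e '' {n | k ≤ n})).topologicalClosure

open Pool.Agent.H106WS in
lemma mem_obvious [CompleteSpace X] (e : HilbertBasis ℤ ℂ X) {k : ℤ} {x : X} :
    x ∈ obvious e k ↔ e.repr x ∈ Mk k := by
  constructor
  · intro h
    have hcl : IsClosed {y : X | e.repr y ∈ Mk k} :=
      (isClosed_Mk k).preimage e.repr.continuous
    have hsub : ((Submodule.span ℂ ((e : ℤ → X) '' {n | k ≤ n}) : Submodule ℂ X) : Set X) ⊆
        {y : X | e.repr y ∈ Mk k} := by
      intro y hy
      refine Submodule.span_induction (p := fun y _ => e.repr y ∈ Mk k) ?_ ?_ ?_ ?_ hy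
      · rintro _ ⟨n, hn, rfl⟩
        rw [e.repr_self, mem_Mk]
        intro m hm
        simp only [Set.mem_setOf_eq] at hn
        have := e_apply n m
        rw [if_neg (by omega)] at this
        exact this
      · rw [map_zero]; exact (Mk k).zero_mem
      · intro x y _ _ hx hy
        rw [map_add]; exact (Mk k).add_mem hx hy
      · intro c x _ hx
        rw [map_smul]; exact (Mk k).smul_mem c hx
    exact closure_minimal hsub hcl h
  · intro h
    rw [mem_Mk] at h
    have hs := e.hasSum_repr x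
    refine (Submodule.isClosed_topologicalClosure _).mem_of_tendsto hs
      (Filter.Eventually.of_forall fun s => ?_)
    refine Submodule.sum_mem _ fun n _ => ?_
    by_cases hn : k ≤ n
    · apply Submodule.smul_mem
      apply Submodule.le_topologicalClosure
      exact Submodule.subset_span ⟨n, hn, rfl⟩
    · rw [h n (by omega), zero_smul]
      exact Submodule.zero_mem _

open Pool.Agent.H106WS in
lemma repr_W [CompleteSpace X] (e : HilbertBasis ℤ ℂ X) (A : X →L[ℂ] X)
    (hA : ∀ n : ℤ, A (e n) = (2 : ℂ) ^ (-|n|) • e (n + 1)) (x : X) :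
    e.repr (A x) = W (e.repr x) := by
  have hd : Dense ((Submodule.span ℂ (Set.range (e : ℤ → X)) : Submodule ℂ X) : Set X) := by
    rw [Submodule.dense_iff_topologicalClosure_eq_top]
    exact e.dense_span
  have h : ((e.repr : X ≃ₗᵢ[ℂ] H).toContinuousLinearEquiv : X →L[ℂ] H).comp A =
      W.comp ((e.repr : X ≃ₗᵢ[ℂ] H).toContinuousLinearEquiv : X →L[ℂ] H) := by
    apply ContinuousLinearMap.ext_on hd
    rintro _ ⟨n, rfl⟩
    show e.repr (A (e n)) = W (e.repr (e n))
    rw [hA, map_smul, e.repr_self, e.repr_self]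
    exact (W_e n).symm
  exact congrArg (fun T : X →L[ℂ] H => T x) h

open Pool.Agent.H106WS in
lemma exists_W [CompleteSpace X] (e : HilbertBasis ℤ ℂ X) :
    ∃ A : X →L[ℂ] X, ∀ n : ℤ, A (e n) = (2 : ℂ) ^ (-|n|) • e (n + 1) := by
  refine ⟨((e.repr : X ≃ₗᵢ[ℂ] H).symm.toContinuousLinearEquiv : H →L[ℂ] X).comp
    (W.comp ((e.repr : X ≃ₗᵢ[ℂ] H).toContinuousLinearEquiv : X →L[ℂ] H)), ?_⟩
  intro n
  show e.repr.symm (W (e.repr (e n))) = _
  rw [e.repr_self]
  have h1 : W (lp.single 2 n (1 : ℂ)) = wt n • lp.single 2 (n + 1) (1 : ℂ) := W_e n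
  rw [h1, map_smul, e.repr_symm_single]
  rfl

open Pool.Agent.H106WS in
lemma classify' [CompleteSpace X] (e : HilbertBasis ℤ ℂ X) (A : X →L[ℂ] X)
    (hA : ∀ n : ℤ, A (e n) = (2 : ℂ) ^ (-|n|) • e (n + 1)) {M : Submodule ℂ X} (hM : M ∈ Lat A) :
    M = ⊥ ∨ M = ⊤ ∨ ∃ k, M = obvious e k := by
  set M' : Submodule ℂ H := M.comap (e.repr.symm.toLinearEquiv : H →ₗ[ℂ] X) with hM'
  have hmem : ∀ y : H, y ∈ M' ↔ e.repr.symm y ∈ M := fun y => Iff.rfl
  have hmem' : ∀ x : X, x ∈ M ↔ e.repr x ∈ M' := fun x => by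
    rw [hmem, LinearIsometryEquiv.symm_apply_apply]
  have hcl : IsClosed (M' : Set H) := hM.1.preimage e.repr.symm.continuous
  have hinv : ∀ f ∈ M', W f ∈ M' := by
    intro f hf
    rw [hmem] at hf ⊢
    have h1 := hM.2 _ hf
    have h2 := repr_W e A hA (e.repr.symm f)
    rw [LinearIsometryEquiv.apply_symm_apply] at h2
    rw [← h2, LinearIsometryEquiv.symm_apply_apply]
    exact h1
  rcases classify hcl hinv with h | h | ⟨k, h⟩
  · left
    rw [Submodule.eq_bot_iff]
    intro x hx
    rw [hmem', h, Submodule.mem_bot] at hx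
    exact (map_eq_zero_iff e.repr e.repr.injective).1 hx
  · right; left
    rw [eq_top_iff]
    intro x _
    rw [hmem', h]; trivial
  · right; right
    refine ⟨k, ?_⟩
    ext x
    rw [hmem', h, mem_obvious]

open Pool.Agent.H106WS in
lemma e_mem_obvious [CompleteSpace X] (e : HilbertBasis ℤ ℂ X) {n k : ℤ} :
    e n ∈ obvious e k ↔ k ≤ n := by
  rw [mem_obvious, e.repr_self, mem_Mk]
  constructor
  · intro h
    by_contra hcon
    push Not at hcon
    have h1 := h n hcon
    have h2 := e_apply n n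
    rw [if_pos rfl] at h2
    have h3 : (e n : X) = e n := rfl
    exact one_ne_zero (h2.symm.trans h1)
  · intro h m hm
    have h2 := Pool.Agent.H106WS.e_apply n m
    rw [if_neg (by omega)] at h2
    exact h2

section
variable (A : X →L[ℂ] X)

lemma bot_mem : (⊥ : Submodule ℂ X) ∈ Lat A := by
  refine ⟨isClosed_singleton, ?_⟩
  intro f hf
  rw [Submodule.mem_bot] at hf ⊢
  rw [hf, map_zero]

lemma top_mem : (⊤ : Submodule ℂ X) ∈ Lat A := ⟨isClosed_univ, fun _ _ => trivial⟩

variable [CompleteSpace X] (e : HilbertBasis ℤ ℂ X)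
variable {A} (hA : ∀ n : ℤ, A (e n) = (2 : ℂ) ^ (-|n|) • e (n + 1))

include hA in
lemma obvious_mem (k : ℤ) : obvious e k ∈ Lat A := by
  refine ⟨Submodule.isClosed_topologicalClosure _, ?_⟩
  intro f hf
  rw [mem_obvious] at hf ⊢
  rw [repr_W e A hA]
  exact Pool.Agent.H106WS.W_mem_Mk hf

lemma obvious_lt {i j : ℤ} (h : i < j) : obvious e j < obvious e i := by
  rw [lt_iff_le_and_ne]
  constructor
  · intro f hf
    rw [mem_obvious, Pool.Agent.H106WS.mem_Mk] at hf ⊢
    intro n hn
    exact hf n (by omega)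
  · intro heq
    have h1 : e i ∈ obvious e j := by
      rw [heq, e_mem_obvious]
    rw [e_mem_obvious] at h1
    omega

lemma bot_lt_obvious (k : ℤ) : (⊥ : Submodule ℂ X) < obvious e k :=
  lt_of_le_of_lt bot_le (obvious_lt e (show k < k + 1 by omega))

lemma obvious_lt_top (k : ℤ) : obvious e k < (⊤ : Submodule ℂ X) :=
  lt_of_lt_of_le (obvious_lt e (show k - 1 < k by omega)) le_top

/-- the parametrisation of the lattice -/
noncomputable def par : WithBot (WithTop ℤ) → Lat A
  | ⊥ => ⟨⊥, bot_mem A⟩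
  | ((⊤ : WithTop ℤ) : WithBot (WithTop ℤ)) => ⟨⊤, top_mem A⟩
  | (((k : ℤ) : WithTop ℤ) : WithBot (WithTop ℤ)) => ⟨obvious e (-k), obvious_mem e hA _⟩

lemma par_strictMono : StrictMono (par e hA) := by
  intro x y hxy
  induction x using WithBot.recBotCoe with
  | bot =>
    induction y using WithBot.recBotCoe with
    | bot => exact absurd hxy (lt_irrefl _)
    | coe y =>
      induction y using WithTop.recTopCoe with
      | top =>
        show (⊥ : Submodule ℂ X) < ⊤
        exact lt_trans (bot_lt_obvious e 0) (obvious_lt_top e 0)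
      | coe k => exact bot_lt_obvious e (-k)
  | coe x =>
    induction y using WithBot.recBotCoe with
    | bot => exact absurd hxy (by simp)
    | coe y =>
      rw [WithBot.coe_lt_coe] at hxy
      induction x using WithTop.recTopCoe with
      | top => exact absurd hxy (by simp)
      | coe i =>
        induction y using WithTop.recTopCoe with
        | top => exact obvious_lt_top e (-i)
        | coe j =>
          rw [WithTop.coe_lt_coe] at hxy
          exact obvious_lt e (show -j < -i by omega)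

lemma par_surjective : Function.Surjective (par e hA) := by
  rintro ⟨M, hM⟩
  rcases classify' e A hA hM with h | h | ⟨k, h⟩
  · exact ⟨⊥, Subtype.ext h.symm⟩
  · exact ⟨((⊤ : WithTop ℤ) : WithBot (WithTop ℤ)), Subtype.ext h.symm⟩
  · refine ⟨(((-k : ℤ) : WithTop ℤ) : WithBot (WithTop ℤ)), Subtype.ext ?_⟩
    show obvious e (- -k) = M
    rw [neg_neg, h]

end

/-- Q2 and Q1: let `(e_n)`, `n ∈ ℤ`, be an orthonormal basis of a Hilbert space. The bounded
operator `W` with `W e_n = 2^{-|n|} e_{n+1}` exists, its closed invariant subspaces are exactly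
`{0}`, the whole space and the closed spans `M_k` of `{e_n : n ≥ k}`, and `Lat W` is
order-isomorphic to `ℤ` with a least and a greatest element adjoined. -/
theorem result [CompleteSpace X] (e : HilbertBasis ℤ ℂ X) :
    (∃ W : X →L[ℂ] X, ∀ n : ℤ, W (e n) = (2 : ℂ) ^ (-|n|) • e (n + 1)) ∧
    ∀ W : X →L[ℂ] X, (∀ n : ℤ, W (e n) = (2 : ℂ) ^ (-|n|) • e (n + 1)) →
      Lat W = {⊥, ⊤} ∪ Set.range (obvious e) ∧ Nonempty (Lat W ≃o WithBot (WithTop ℤ)) := by
  refine ⟨exists_W e, fun W hW => ⟨?_, ⟨(StrictMono.orderIsoOfSurjective (par e hW)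
    (par_strictMono e hW) (par_surjective e hW)).symm⟩⟩⟩
  ext M
  constructor
  · intro h
    rcases classify' e W hW h with h | h | ⟨k, h⟩
    · left; left; exact h
    · left; right; exact h
    · right; exact ⟨k, h.symm⟩
  · rintro ((rfl | rfl) | ⟨k, rfl⟩)
    · exact bot_mem W
    · exact top_mem W
    · exact obvious_mem e hW k

end Pool.Agent.Results.MP_1e8505_an.ObviousSubspaces
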